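import Mathlib
import Pool.Agent.Lib.MP_249bfd_co.Data3

set_option autoImplicit false

/-!
A Delaunay complex in dimension three without a Hamiltonian sphere: the 600 vertices of the regular
120-cell, seen in three-space through stereographic projection.
-/

namespace Pool.Agent.Results.MP_249bfd_co.NoHamiltonianSphere

/-- Euclidean space of dimension `n`. -/
abbrev E (n : ℕ) := EuclideanSpace ℝ (Fin n)

/-- Inverse stereographic projection `ℝ^d → S^d ⊂ ℝ^{d+1}` from the north pole,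
`x ↦ (2 x, ‖x‖² - 1) / (‖x‖² + 1)`. -/
noncomputable def sigma {d : ℕ} (x : E d) : E (d + 1) :=
  WithLp.toLp 2 (Fin.snoc (α := fun _ => ℝ) (fun i => 2 * x i / (‖x‖ ^ 2 + 1))
    ((‖x‖ ^ 2 - 1) / (‖x‖ ^ 2 + 1)))

/-- The polytope `H(T') = conv (σ(T))`. -/
def H {d : ℕ} (T : Set (E d)) : Set (E (d + 1)) := convexHull ℝ (sigma '' T)

/-- The Delaunay complex `D(T)`: all proper nonempty faces of the polytope `H(T')`. -/
def Delaunay {d : ℕ} (T : Set (E d)) : Set (Set (E (d + 1))) :=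
  {F | F.Nonempty ∧ F ≠ H T ∧ IsExposed ℝ (H T) F}

/-- A subcomplex of `D(T)`: a set of faces that contains, with a face, all the faces of it. -/
def IsSubcomplex {d : ℕ} (T : Set (E d)) (K : Set (Set (E (d + 1)))) : Prop :=
  K ⊆ Delaunay T ∧ ∀ F ∈ K, ∀ G ∈ Delaunay T, G ⊆ F → G ∈ K

/-- A Hamiltonian sphere of `D(T)`: a subcomplex whose vertex set is all of `T` and whose underlying
space is homeomorphic to the sphere `S^{d-1}`. -/
def IsHamiltonianSphere {d : ℕ} (T : Set (E d)) (K : Set (Set (E (d + 1)))) : Prop :=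
  IsSubcomplex T K ∧ (∀ t ∈ T, {sigma t} ∈ K) ∧
    Nonempty ((⋃₀ K : Set (E (d + 1))) ≃ₜ Metric.sphere (0 : E d) 1)

/-- The set `S` is contained in an affine hyperplane `{x | ⟨a, x⟩ = b}`, `a ≠ 0`. -/
def InHyperplane {n : ℕ} (S : Set (E n)) : Prop :=
  ∃ a : E n, a ≠ 0 ∧ ∃ b : ℝ, ∀ x ∈ S, inner ℝ a x = b

open Pool.Agent.MP249bfd Pool.Agent.MP249bfd.Dat

/-- stereographic projection -/
noncomputable def pr (y : E 4) : E 3 :=
  WithLp.toLp 2 ![y 0 / (1 - y 3), y 1 / (1 - y 3), y 2 / (1 - y 3)]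

theorem sigma0 (x : E 3) : sigma x 0 = 2 * x 0 / (‖x‖ ^ 2 + 1) := rfl
theorem sigma1 (x : E 3) : sigma x 1 = 2 * x 1 / (‖x‖ ^ 2 + 1) := rfl
theorem sigma2 (x : E 3) : sigma x 2 = 2 * x 2 / (‖x‖ ^ 2 + 1) := rfl
theorem sigma3 (x : E 3) : sigma x 3 = (‖x‖ ^ 2 - 1) / (‖x‖ ^ 2 + 1) := rfl

theorem den (x : E 3) : 1 - sigma x 3 = 2 / (‖x‖ ^ 2 + 1) := by
  rw [sigma3]
  have : (‖x‖ ^ 2 + 1) ≠ 0 := by positivity
  field_simp
  ring

theorem pr_sigma (x : E 3) : pr (sigma x) = x := by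
  have h : (‖x‖ ^ 2 + 1) ≠ 0 := by positivity
  ext i
  fin_cases i
  · show sigma x 0 / (1 - sigma x 3) = x 0
    rw [den, sigma0]
    field_simp
  · show sigma x 1 / (1 - sigma x 3) = x 1
    rw [den, sigma1]
    field_simp
  · show sigma x 2 / (1 - sigma x 3) = x 2
    rw [den, sigma2]
    field_simp

theorem sigma_pr (y : E 4) (hy : ‖y‖ = 1) (h3 : y 3 ≠ 1) : sigma (pr y) = y := by
  have hsq : (y 0) ^ 2 + (y 1) ^ 2 + (y 2) ^ 2 + (y 3) ^ 2 = 1 := by
    have h1 := EuclideanSpace.norm_sq_eq y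
    rw [hy, Fin.sum_univ_four] at h1
    simp only [Real.norm_eq_abs, sq_abs] at h1
    linarith
  have hd : 1 - y 3 ≠ 0 := fun h => h3 (by linarith)
  have hn : ‖pr y‖ ^ 2 = (1 + y 3) / (1 - y 3) := by
    rw [EuclideanSpace.norm_sq_eq, Fin.sum_univ_three]
    simp only [Real.norm_eq_abs, sq_abs]
    show (y 0 / (1 - y 3)) ^ 2 + (y 1 / (1 - y 3)) ^ 2 + (y 2 / (1 - y 3)) ^ 2 = _
    field_simp
    linear_combination hsq
  have hn1 : ‖pr y‖ ^ 2 + 1 = 2 / (1 - y 3) := by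
    rw [hn]
    field_simp
    ring
  have hn2 : ‖pr y‖ ^ 2 - 1 = 2 * y 3 / (1 - y 3) := by
    rw [hn]
    field_simp
    ring
  ext i
  fin_cases i
  · show sigma (pr y) 0 = y 0
    rw [sigma0, hn1]
    show 2 * (y 0 / (1 - y 3)) / (2 / (1 - y 3)) = y 0
    field_simp
  · show sigma (pr y) 1 = y 1
    rw [sigma1, hn1]
    show 2 * (y 1 / (1 - y 3)) / (2 / (1 - y 3)) = y 1
    field_simp
  · show sigma (pr y) 2 = y 2
    rw [sigma2, hn1]
    show 2 * (y 2 / (1 - y 3)) / (2 / (1 - y 3)) = y 2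
    field_simp
  · show sigma (pr y) 3 = y 3
    rw [sigma3, hn1, hn2]
    field_simp

theorem sigma_injective : Function.Injective (sigma : E 3 → E 4) :=
  Function.LeftInverse.injective pr_sigma

/-- The point set: stereographic image of the vertices of the 120-cell. -/
def T0 : Set (E 3) := {x | ∃ τ ∈ cell.Q, cell.z τ = sigma x}

theorem image_T0 : sigma '' T0 = cell.z '' (cell.Q : Set (Finset (Fin 120))) := by
  ext y
  constructor
  · rintro ⟨x, ⟨τ, hτ, h⟩, rfl⟩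
    exact ⟨τ, hτ, h⟩
  · rintro ⟨τ, hτ, rfl⟩
    have h := sigma_pr (cell.z τ) (cell.norm_z hτ) (z_ne_north hτ)
    exact ⟨pr (cell.z τ), ⟨τ, hτ, h.symm⟩, h⟩

theorem z_injOn : Set.InjOn cell.z (cell.Q : Set (Finset (Fin 120))) := by
  intro τ hτ τ' hτ' h
  ext i
  rw [← cell.sl_z_eq_zero hτ, ← cell.sl_z_eq_zero hτ', h]

theorem ncard_T0 : T0.ncard = 600 := by
  rw [← Set.ncard_image_of_injective T0 sigma_injective, image_T0,
    z_injOn.ncard_image, Set.ncard_coe_finset]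
  exact card_Q

theorem span_T0' : ¬ InHyperplane (sigma '' T0) := by
  rintro ⟨w, hw, b, hb⟩
  rw [image_T0] at hb
  obtain ⟨τ, hτ⟩ := Q_nonempty
  have hτ' : τ ∈ cell.Q := hτ
  have hz : ∀ τ' ∈ cell.Q, inner ℝ w (cell.z τ') = b := fun τ' h => hb _ ⟨τ', h, rfl⟩
  have hd : ∀ i ∈ τ, inner ℝ w (cell.dv τ i) = 0 := by
    intro i hi
    rw [Cell.dv, inner_smul_right, inner_sub_right, hz _ (cell.nbr_spec hτ' hi).1, hz _ hτ',
      sub_self, mul_zero]
  have h1 := cell.eq_Th hτ' (w + cell.z τ)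
  have h2 : w = ∑ i ∈ τ, cell.sl i (w + cell.z τ) • cell.dv τ i := by
    rw [Cell.Th, add_comm (cell.z τ)] at h1
    exact add_right_cancel h1
  have h3 : inner ℝ w w = (0 : ℝ) := by
    conv_lhs => rw [h2]
    rw [sum_inner]
    refine Finset.sum_eq_zero fun i hi => ?_
    rw [real_inner_comm, ← h2, inner_smul_right, hd i hi, mul_zero]
  rw [inner_self_eq_zero] at h3
  exact hw h3

theorem span_T0 : ¬ InHyperplane T0 := by
  rintro ⟨a, ha0, b, hT⟩
  apply span_T0'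
  have h3 : ∀ x ∈ T0, a 0 * sigma x 0 + a 1 * sigma x 1 + a 2 * sigma x 2 + b * sigma x 3 = b := by
    intro x hx
    have h4 := hT x hx
    rw [PiLp.inner_apply, Fin.sum_univ_three] at h4
    simp only [RCLike.inner_apply, conj_trivial] at h4
    rw [sigma0, sigma1, sigma2, sigma3]
    have : (‖x‖ ^ 2 + 1) ≠ 0 := by positivity
    field_simp
    linear_combination 2 * h4
  let w : E 4 := WithLp.toLp 2 ![a 0, a 1, a 2, b]
  have h6 : ∀ y : E 4, inner ℝ w y = a 0 * y 0 + a 1 * y 1 + a 2 * y 2 + b * y 3 := by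
    intro y
    rw [PiLp.inner_apply, Fin.sum_univ_four]
    simp only [w, Matrix.cons_val_zero, Matrix.cons_val_one, Matrix.cons_val, RCLike.inner_apply,
      conj_trivial]
    ring
  refine ⟨w, ?_, b, ?_⟩
  · intro h8
    apply ha0
    have h9 : ∀ i, w i = 0 := fun i => by rw [h8]; rfl
    ext i
    fin_cases i
    · exact h9 0
    · exact h9 1
    · exact h9 2
  · rintro _ ⟨x, hx, rfl⟩
    rw [h6, h3 x hx]

/-- There is a set `T` of 600 points in three-space, not contained in a plane and not cospherical,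
whose Delaunay complex has no Hamiltonian sphere. -/
theorem result : ∃ T : Set (E 3), T.ncard = 600 ∧ ¬ InHyperplane T ∧
    ¬ InHyperplane (sigma '' T) ∧ ∀ K : Set (Set (E 4)), ¬ IsHamiltonianSphere T K := by
  refine ⟨T0, ncard_T0, span_T0, span_T0', ?_⟩
  rintro K ⟨⟨h1, h2⟩, h3, ⟨e⟩⟩
  have hH : H T0 = cell.P := by
    rw [H, image_T0]
    rfl
  have hSC : cell.SC K := by
    refine ⟨fun F hF => ?_, fun F hF G hG1 hG2 hG3 hGF => ?_, fun τ hτ => ?_⟩
    · have := h1 hF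
      rw [Delaunay, hH] at this
      exact this
    · refine h2 F hF G ?_ hGF
      rw [Delaunay, hH]
      exact ⟨hG1, hG2, hG3⟩
    · have h4 : cell.z τ ∈ sigma '' T0 := by
        rw [image_T0]
        exact ⟨τ, hτ, rfl⟩
      obtain ⟨t, ht, h5⟩ := h4
      rw [← h5]
      exact h3 t ht
  exact (no_sphere K hSC).false e

end Pool.Agent.Results.MP_249bfd_co.NoHamiltonianSphere
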